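import Mathlib
import Pool.Agent.N140.RO.Pb
import Pool.Agent.N94.KM.Ext

/-!
# The Tate conjecture at 2 for pullbacks of all rational elliptic surfaces with a section of order two
# and rational bad fibres, along arbitrary sequences, for almost all multipliers

Let `K` be a number field, `ω` a basis of its ring of integers, `n ≥ 5` odd. The coordinates of the
coefficients of two polynomials `q`, `r` of degree at most `n` over the ring of integers form a vector `c` of
integers. Let `k'` be a finite extension of `K` and let

`E₀ : y² = x (x² + a x + b)`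

be a rational elliptic surface over `k'(s)` with a section of order two: `a`, `b` are polynomials over `k'` of
degrees at most `2` and `4` (every such surface has an equation of this form), neither `b` nor
`d = a² - 4 b` is a constant times a square, and `b d` is a product of linear polynomials over `k'` (`Base`).
Let `E` be the pullback of `E₀` by `s = q(t) / r(t)`.

The vector `c` is good for `E₀` over `k'` (`GoodOver`, the same notion as in the file `RandomPullbacks` of
helper140) if `q`, `r` are coprime, all the forms of the bad places are irreducible of degree `n`, and for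
EVERY extension field `L` of `k'` such that for each element of `L` which is algebraic over `k'` the Galois
group of its minimal polynomial over `k'` is solvable (or more generally if the elements of `L` which are
algebraic over `k'` lie in a normal extension of `k'` over which none of the forms splits into linear
factors) the Tate conjecture for divisors at the prime 2 holds for the surface over `L` (`TateQ 2`).

A sequence `v_0, v_1, …` of integral vectors is called good (`GoodSequence`) if there is ONE set `X` of
indices of density zero such that for ALL finite extensions `k'` of `K` in an algebraic closure and ALL bases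
`E₀` over `k'` the vector `v_i` is good for `E₀` over `k'` for all but finitely many `i` outside `X`.

**Theorem.**
1. Let `f_{j,0}, f_{j,1}, …` be functions which satisfy the hypothesis of Koksma's theorem on `[a_j, b_j]`
   (`Koksma`), one sequence for every coordinate `j`. Then `(⌊f_{j,i}(α_j)⌋)_j` is good for almost all `α`
   with `a_j ≤ α_j ≤ b_j`.
2. Let `a_{j,0}, a_{j,1}, …` be ANY sequences of real numbers with mutual distances at least `δ > 0`, for
   example any sequences of different integers (`i!`, `2 ^ i`, any enumeration of any infinite set of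
   integers or of primes). Then `(⌊a_{j,i} α_j⌋)_j` is good for almost all `α`.
3. Let `k_0, k_1, …` be ANY sequence of different natural numbers, and `ξ_j ≠ 0`. Then
   `(⌊ξ_j α_j ^ k_i⌋)_j` is good for almost all `α` with all `α_j > 1`.

Proof. Local criterion of helper181 (`MP_1bad5e_ag.RationalSurfacePullbacks`) with the library of helper601;
the vectors which are not good are a pronull set (helper140, `RandomPullbacks`); almost all metric sequences
visit a pronull set only at times of density zero (helper24 with the workers of the project KM); one set for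
countably many data (helper18).
-/

set_option autoImplicit false

namespace Pool.Agent.Results.MP_17a657_ag.MetricPullbacks

open Polynomial NumberField MeasureTheory Filter Topology Pool.Agent.N24.RW Pool.Agent.N140.RO
  Pool.Agent.N140.RO.Pb

/-- The coordinates of the coefficients of the pair `(q, r)`. -/
abbrev Ix (n : ℕ) (J : Type) : Type := (Fin (n + 1) ⊕ Fin (n + 1)) × J

section

variable {K : Type} [Field K] {J : Type} [Fintype J] (ω : Module.Basis J ℤ (𝓞 K)) {n : ℕ}

/-- The polynomial `q` over the ring of integers with the coordinates `c`. -/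
noncomputable def polQ (c : Ix n J → ℤ) : K[X] :=
  ∑ j : Fin (n + 1), C (algebraMap (𝓞 K) K (vec ω c (Sum.inl j))) * X ^ (j : ℕ)

/-- The polynomial `r` over the ring of integers with the coordinates `c`. -/
noncomputable def polR (c : Ix n J → ℤ) : K[X] :=
  ∑ j : Fin (n + 1), C (algebraMap (𝓞 K) K (vec ω c (Sum.inr j))) * X ^ (j : ℕ)

/-- The vector `c` is good for the base given by `(a, b)` over the extension `E` of `K`. -/
def GoodOver (E : Type) [Field E] [Algebra K E] (a b : E[X]) (c : Ix n J → ℤ) : Prop :=
  Good E n a b ((polQ ω c).map (algebraMap K E)) ((polR ω c).map (algebraMap K E))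

end

open Pool.Agent.X243.Gen Pool.Agent.N181.P3 in
theorem pro {K : Type} [Field K] {J : Type} [Fintype J] (ω : Module.Basis J ℤ (𝓞 K)) {n : ℕ}
    (hn : 5 ≤ n) (hodd : ¬ 2 ∣ n) (E : Type) [Field E] [NumberField E] [Algebra K E] {a b : E[X]}
    (hB : Pb.Base a b) : ProNull {c : Ix n J → ℤ | ¬ GoodOver ω E a b c} := by
  classical
  have hD' : (0 : ℝ) < ((Pool.Agent.X243.Sol.DD n * Pool.Agent.X243.Sol.DD n : ℕ) : ℝ) := by
    have h1 : 0 < Pool.Agent.X243.Sol.DD n := by
      have := Pool.Agent.X243.Sol.D3_pos n
      unfold Pool.Agent.X243.Sol.DD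
      have h3 : 0 < 4 * n := by omega
      positivity
    exact_mod_cast Nat.mul_pos h1 h1
  obtain ⟨D, μ, ρ, hD, hρ⟩ := exists_roots (R := 𝓞 E) (mul_ne_zero hB.rat.hb0 hB.rat.hd0)
  refine proNull_of (σ := Option (Idx μ × Fin 3)) (fun s => {c : Ix n J → ℤ |
      ∀ P ∈ Two2.Big E (2 * n + 2) D,
      (fun i => Ideal.Quotient.mk P (algebraMap (𝓞 K) (𝓞 E) (vec ω c i))) ∉
        Lev n (cl D) (cm ρ) none (some none) s P}) _ (fun s => ?_) ?_
  · refine Two2.pro_sieve t_CRIT ω (2 * n + 2) hD
      (fun P => Lev n (cl D) (cm ρ) none (some none) s P)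
      (δ := 1 / ((Pool.Agent.X243.Sol.DD n * Pool.Agent.X243.Sol.DD n : ℕ) : ℝ)) (by positivity)
      (fun P hP => ?_)
    have h1 := Lev_card' (by omega : 3 ≤ n) (cl D) (cm ρ) none (some none) s hP.1.1 hP.1.2.1
      hP.1.2.2.1 (cl_ne ρ hP.1.1 hP.2) (cl_det D ρ hP.1.1)
    have hc : Fintype.card (Fin (n + 1) ⊕ Fin (n + 1)) = 2 * n + 2 := by
      rw [Fintype.card_sum, Fintype.card_fin]
      omega
    rw [hc, one_div, inv_mul_le_iff₀ hD']
    exact_mod_cast h1
  · intro c hc
    by_contra hno
    apply hc
    simp only [Set.mem_ofPred_eq, not_exists, not_forall, not_not] at hno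
    set z : Pairs n (𝓞 E) := (fun j => algebraMap (𝓞 K) (𝓞 E) (vec ω c (Sum.inl j)),
      fun j => algebraMap (𝓞 K) (𝓞 E) (vec ω c (Sum.inr j))) with hz
    have hzv : toV z = fun i => algebraMap (𝓞 K) (𝓞 E) (vec ω c i) := by
      funext i
      rcases i with j | j <;> rfl
    have key := good_pair (R := 𝓞 E) (k := E) hB hn hodd hD hρ (z := z) (fun s => by
        obtain ⟨P, hP, h⟩ := hno s
        refine ⟨P, ⟨hP.1.1, hP.1.2.1, hP.1.2.2.1, hP.2⟩, ?_⟩
        rw [hzv]
        exact h)
    have e1 : poly E z.1 = (polQ ω c).map (algebraMap K E) := by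
      rw [poly, polQ, Polynomial.map_sum]
      refine Finset.sum_congr rfl fun j _ => ?_
      rw [Polynomial.map_mul, Polynomial.map_pow, map_C, map_X, hz,
        ← IsScalarTower.algebraMap_apply, ← IsScalarTower.algebraMap_apply]
    have e2 : poly E z.2 = (polR ω c).map (algebraMap K E) := by
      rw [poly, polR, Polynomial.map_sum]
      refine Finset.sum_congr rfl fun j _ => ?_
      rw [Polynomial.map_mul, Polynomial.map_pow, map_C, map_X, hz,
        ← IsScalarTower.algebraMap_apply, ← IsScalarTower.algebraMap_apply]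
    rw [e1, e2] at key
    exact key

theorem countable_poly (E : Type) [Field E] (h : Countable E) : Countable (E[X] × E[X]) := by
  have h1 : Countable E[X] := by
    rw [← Cardinal.mk_le_aleph0_iff]
    refine Polynomial.cardinalMk_le_max.trans ?_
    rw [max_le_iff]
    exact ⟨Cardinal.mk_le_aleph0_iff.2 h, le_rfl⟩
  infer_instance

/-- The hypothesis of Koksma's theorem: the functions `f n` are twice continuously differentiable, the
derivatives of different ones differ by at least `δ > 0` on `[a, b]`, and the second derivative of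
`f m - f n` does not change its sign there. -/
def Koksma (a b : ℝ) (f : ℕ → ℝ → ℝ) : Prop :=
  (∀ n, ContDiff ℝ 2 (f n)) ∧ ∃ δ : ℝ, 0 < δ ∧ ∀ m n : ℕ, m ≠ n →
    (∀ x ∈ Set.Icc a b, δ ≤ |deriv (f m) x - deriv (f n) x|) ∧
    ((∀ x ∈ Set.Icc a b, deriv (deriv (f n)) x ≤ deriv (deriv (f m)) x) ∨
      ∀ x ∈ Set.Icc a b, deriv (deriv (f m)) x ≤ deriv (deriv (f n)) x)

/-- `X` has natural density zero. -/
def DensityZero (X : Set ℕ) : Prop :=
  Tendsto (fun N : ℕ => (({i : ℕ | i < N ∧ i ∈ X}.ncard : ℕ) : ℝ) / (N : ℝ)) atTop (𝓝 0)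

/-- One set `X` of indices of density zero for all finite extensions of `K` and all bases: outside of `X`
all but finitely many of the vectors `v i` are good for the base over the extension. -/
def GoodSequence {K : Type} [Field K] {J : Type} [Fintype J] (ω : Module.Basis J ℤ (𝓞 K)) {n : ℕ}
    (v : ℕ → Ix n J → ℤ) : Prop :=
  ∃ X : Set ℕ, DensityZero X ∧
    ∀ E : IntermediateField K (AlgebraicClosure K), FiniteDimensional K E →
      ∀ a b : Polynomial E, Pb.Base a b → {i : ℕ | i ∉ X ∧ ¬ GoodOver ω E a b (v i)}.Finite

theorem result {K : Type} [Field K] [NumberField K] {J : Type} [Fintype J]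
    (ω : Module.Basis J ℤ (𝓞 K)) {n : ℕ} (hn : 5 ≤ n) (hodd : ¬ 2 ∣ n) :
    (∀ (a b : Ix n J → ℝ) (f : Ix n J → ℕ → ℝ → ℝ), (∀ j, a j < b j) →
      (∀ j, Koksma (a j) (b j) (f j)) →
      ∀ᵐ α : Ix n J → ℝ, (∀ j, α j ∈ Set.Icc (a j) (b j)) →
        GoodSequence ω fun i j => ⌊f j i (α j)⌋) ∧
    (∀ (a : Ix n J → ℕ → ℝ) (δ : ℝ), 0 < δ → (∀ j i i', i ≠ i' → δ ≤ |a j i - a j i'|) →
      ∀ᵐ α : Ix n J → ℝ, GoodSequence ω fun i j => ⌊a j i * α j⌋) ∧
    (∀ (k : ℕ → ℕ) (ξ : Ix n J → ℝ), Function.Injective k → (∀ j, ξ j ≠ 0) →
      ∀ᵐ α : Ix n J → ℝ, (∀ j, 1 < α j) → GoodSequence ω fun i j => ⌊ξ j * α j ^ k i⌋) := by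
  have h1 : ∀ (E : Type) [Field E] [NumberField E] [Algebra K E] (a b : E[X]), Pb.Base a b →
      ProNull {c : Ix n J → ℤ | ¬ GoodOver ω E a b c} := fun E _ _ _ a b hB =>
    pro ω hn hodd E hB
  refine Pool.Agent.N94.KM.parts_t (K := K) (fun E [Field E] => E[X] × E[X])
    (fun E [Field E] hE => countable_poly E hE)
    (fun E [Field E] [Algebra K E] t c => Pb.Base t.1 t.2 → GoodOver ω E t.1 t.2 c)
    (fun E [Field E] [NumberField E] [Algebra K E] t => ?_) _ fun v X hX hv => ?_
  · by_cases hB : Pb.Base t.1 t.2
    · refine Clo.mono ?_ (h1 E t.1 t.2 hB)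
      intro c hc hg
      exact hc fun _ => hg
    · refine Clo.mono ?_ proNull_empty
      intro c hc
      exact hc fun h => absurd h hB
  · refine ⟨X, hX, fun E hE a b hB => ?_⟩
    refine (hv E hE (a, b)).subset ?_
    rintro i ⟨h5, h6⟩
    exact ⟨h5, fun h7 => h6 (h7 hB)⟩

end Pool.Agent.Results.MP_17a657_ag.MetricPullbacks
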