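import Mathlib
import Pool.Agent.TH115.GD.Defs
import Pool.Agent.TH115.ID.Defs
import Pool.Agent.X243.CD.Three
import Pool.Agent.X243.Gen.Main
import Pool.Agent.N601.PB.Hom

/-!
# The Tate conjecture at 2, the Mordell-Weil group and the Tate-Shafarevich group for 100% of the elliptic
# surfaces with a section of order two over all finitely generated fields of characteristic different
# from 2, all their extensions with solvable constants and all the twists by constants

Let `R` be an integrally closed domain which is finitely generated as a ring and not a field, with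
`2 ≠ 0` in `R`, and `k` its field of fractions. (Each infinite finitely generated field of
characteristic different from 2 is the field of fractions of such an `R`.) Every elliptic curve over
`k(t)` with a rational point of order two has an equation

`E : y² = x (x² + a x + b)`

with polynomials `a`, `b`. We consider `a` of degree at most `m` and `b` of degree at most `N`, where
`2 m ≤ N` and `N ≥ 5`; for `m = 2 n`, `N = 4 n` these are all the elliptic surfaces over the projective
line with a section of order two and fundamental line bundle of degree `n`, and for general `a`, `b` the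
geometric genus is `n - 1`.

Call `(a, b)` good if `b` and `a² - 4 b` are irreducible over `k` of degree `N` and separable, and for EVERY
extension field `L` of `k` (for example `L = k`) with a separable closure `L'` the following holds.

(A) If the elements of `L` which are separable algebraic over `k` lie in a normal extension `M` of `k` in
`L'`, such that neither `b` nor `a² - 4 b` splits into linear factors over `M`, then (`HoldsOver`) for EVERY
constant `c ≠ 0` of `L` and the twist `E_c : y² = x (x² + c a x + c² b)` over `L(t)`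

(i) the Tate conjecture for divisors at the prime 2 holds (`TateAtTwo`): the classes in
`V₂ Sel(E_c / L'(t))` which are fixed by the Galois group come from `E_c(L(t))`;

(ii) every point of `E_c(L(t))` is the sum of a point of order at most two and the double of a point
(`PointsComplete`), and if `E_c(L(t))` is finitely generated (the theorem of Lang and Néron for finitely
generated `L`), then it is finite;

(iii) every class of 2-power order in `H¹(L(t), E_c)` which is trivial over the completions of `L(t)` at
all finite places is zero (`ShaTwoTrivial`); so the Tate-Shafarevich group has no element of order two.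

(B) The same is true if for each element of `L` which is separable algebraic over `k` the Galois group of
its minimal polynomial over `k` is solvable.

Theorem. Let `2 m ≤ N`, `N ≥ 5`.

(1) (Congruences.) For every `η > 0` there is an ideal `M` of `R` with finite quotient and a set of
residue classes modulo `M` of pairs `(a, b)` over `R` of degrees at most `m`, `N` with proportion at least
`1 - η` among all the residue classes, such that EVERY pair over `R` in one of these residue classes
is good.

(2) (100%.) Let `B 0`, `B 1`, ... be a sequence of nonempty finite sets of such pairs over `R` which is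
equidistributed modulo each ideal of `R` with finite quotient. Then the proportion of the good
pairs in `B i` tends to `1`.

The proof: Frobenius elements at maximal ideals of `R` show that the Galois groups of `b` and `a² - 4 b` over
`k` are the full symmetric groups; so both stay irreducible over `L`, they are not constants times norms
from quadratic extensions of `L`, and no constant of `L` becomes a square modulo one of them. The
descents via the isogenies of degree two are done over `L'(t)` for Galois invariant classes, and over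
`L(t)` for points and classes; and a sieve over the maximal ideals of `R`.
-/

namespace Pool.Agent.Results.MP_17a657_ag.OrderTwoSections

open Polynomial Pool.Agent.TH115.GD Pool.Agent.X243.CD Pool.Agent.W309 Filter Topology
open scoped Classical

/-- The polynomial over `k` with the coefficients `c`. -/
noncomputable def poly {R : Type} [CommRing R] (k : Type) [Field k] [Algebra R k] {r : ℕ}
    (c : Fin r → R) : k[X] :=
  ∑ j : Fin r, C (algebraMap R k (c j)) * X ^ (j : ℕ)

/-- The pairs of coefficient vectors of polynomials of degree at most `m` and `N`. -/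
abbrev Pairs (m N : ℕ) (R : Type) : Type := (Fin (m + 1) → R) × (Fin (N + 1) → R)

/-- The twist `y² = x (x² + c a x + c² b)` over `K = L(t)`, `a` and `b` polynomials over the subfield `k` of
`L`, `c` in `L`. -/
noncomputable abbrev Ec {k : Type} [Field k] {L : Type} (K : Type) [Field L] [Algebra k L] [Field K]
    [Algebra L[X] K] (a b : k[X]) (c : L) : WeierstrassCurve K :=
  crvT (algebraMap L[X] K (C c * a.map (algebraMap k L)))
    (algebraMap L[X] K (C (c ^ 2) * b.map (algebraMap k L)))

/-- The conclusions for all the twists by constants of `L` (`L'` is a separable closure of `L`,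
`K = L(t)`, `F = L'(t)`). -/
def HoldsOver {k : Type} [Field k] (a b : k[X]) (L L' K F : Type) [Field L] [Field L']
    [Algebra L L'] [Field K] [Algebra L[X] K] [IsFractionRing L[X] K] [Field F] [Algebra L'[X] F]
    [IsFractionRing L'[X] F] [Algebra K F] [Algebra k L] : Prop :=
  ∀ c : L, c ≠ 0 →
    TateAtTwo (F := F) L' (Ec K a b c) ∧
    Sha.PointsComplete (Ec K a b c) ∧
    (AddGroup.FG (Pt (Ec K a b c) K) → Finite (Pt (Ec K a b c) K)) ∧
    Sha.ShaTwoTrivial L[X] (Ec K a b c)

/-- The good pairs. -/
structure Good (k : Type) [Field k] (N : ℕ) (a b : k[X]) : Prop where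
  irrB : Irreducible b ∧ b.natDegree = N ∧ b.Separable
  irrD : Irreducible (a ^ 2 - 4 * b) ∧ (a ^ 2 - 4 * b).natDegree = N ∧ (a ^ 2 - 4 * b).Separable
  tate : ∀ (L L' K F : Type) [Field L] [Field L'] [Algebra L L'] [Field K] [Algebra L[X] K]
    [IsFractionRing L[X] K] [Field F] [Algebra L'[X] F] [IsFractionRing L'[X] F] [Algebra K F]
    [Algebra k L] [Algebra k L'] [IsScalarTower k L L'], IsTower L L' K F →
      ∀ M : IntermediateField k L', Normal k M →
        (∀ x : L, IsSeparable k x → algebraMap L L' x ∈ M) →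
        ¬ (b.map (algebraMap k M)).Splits → ¬ ((a ^ 2 - 4 * b).map (algebraMap k M)).Splits →
        HoldsOver a b L L' K F
  solv : ∀ (L L' K F : Type) [Field L] [Field L'] [Algebra L L'] [Field K] [Algebra L[X] K]
    [IsFractionRing L[X] K] [Field F] [Algebra L'[X] F] [IsFractionRing L'[X] F] [Algebra K F]
    [Algebra k L] [Algebra k L'] [IsScalarTower k L L'], IsTower L L' K F →
      (∀ x : L, IsSeparable k x → Group.IsSolvable (minpoly k x).Gal) →
        HoldsOver a b L L' K F

/-- The pair `y` over `R` is in the residue class `z`. -/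
def InClass {R : Type} [CommRing R] {m N : ℕ} {M : Ideal R} (y : Pairs m N R)
    (z : Pairs m N (R ⧸ M)) : Prop :=
  (∀ j, Ideal.Quotient.mk M (y.1 j) = z.1 j) ∧ (∀ j, Ideal.Quotient.mk M (y.2 j) = z.2 j)

/-- A sequence of finite sets of pairs which is equidistributed modulo each ideal with finite
quotient. -/
def Equidistributed {R : Type} [CommRing R] {m N : ℕ} (B : ℕ → Finset (Pairs m N R)) : Prop :=
  ∀ M : Ideal R, Finite (R ⧸ M) → ∀ z : Pairs m N (R ⧸ M),
    Tendsto (fun i => (((B i).filter (fun y => InClass y z)).card : ℝ) / ((B i).card : ℝ)) atTop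
      (𝓝 (1 / (Nat.card (Pairs m N (R ⧸ M)) : ℝ)))

/-- The vector of all the coefficients. -/
def toV {m N : ℕ} {R : Type} (z : Pairs m N R) : Fin (m + 1) ⊕ Fin (N + 1) → R := Sum.elim z.1 z.2

theorem toV_inj {m N : ℕ} {R : Type} : Function.Injective (toV (m := m) (N := N) (R := R)) := by
  rintro ⟨a, b⟩ ⟨a', b'⟩ h
  exact Prod.ext (funext fun j => congrFun h (Sum.inl j)) (funext fun j => congrFun h (Sum.inr j))

theorem toV_surj {m N : ℕ} {R : Type} (y : Fin (m + 1) ⊕ Fin (N + 1) → R) :
    ∃ z : Pairs m N R, toV z = y := by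
  refine ⟨(fun j => y (Sum.inl j), fun j => y (Sum.inr j)), ?_⟩
  funext j
  rcases j with j | j <;> rfl

theorem inClass_iff {R : Type} [CommRing R] {m N : ℕ} {M : Ideal R} (y : Pairs m N R)
    (z : Pairs m N (R ⧸ M)) :
    InClass y z ↔ ∀ j, Ideal.Quotient.mk M (toV y j) = toV z j := by
  constructor
  · rintro ⟨h1, h2⟩ (j | j)
    · exact h1 j
    · exact h2 j
  · intro h
    exact ⟨fun j => h (Sum.inl j), fun j => h (Sum.inr j)⟩

section holds

open Pool.Agent.X243.Gen (FF three_gen solvM solvM_normal mem_solvM solvM_not_splits)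

variable {k : Type} [Field k]

theorem notNorm_C {p : k[X]} (h : NotNorm p) {u : k} (hu : u ≠ 0) : NotNorm (C u * p) := by
  intro w D U V e
  refine h (u⁻¹ * w) D U V ?_
  have h1 : C u⁻¹ * C u = (1 : k[X]) := by rw [← C_mul, inv_mul_cancel₀ hu, C_1]
  calc p = C u⁻¹ * (C u * p) := by rw [← mul_assoc, h1, one_mul]
    _ = _ := by rw [e, C_mul, mul_assoc]

/-- A group which is finitely generated and equal to the doubles plus the points of order two is
finite. -/
theorem finite_of_complete {A : Type} [AddCommGroup A] (h : ∀ P : A, ∃ Q T : A, T + T = 0 ∧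
    P = Q + Q + T) (hfg : AddGroup.FG A) : Finite A := by
  let H : AddSubgroup A :=
    { carrier := {T | T + T = 0}
      zero_mem' := add_zero 0
      add_mem' := fun {x y} hx hy => by
        show x + y + (x + y) = 0
        rw [add_add_add_comm, show x + x = 0 from hx, show y + y = 0 from hy, add_zero]
      neg_mem' := fun {x} hx => by
        show -x + -x = 0
        rw [← neg_add, show x + x = 0 from hx, neg_zero] }
  obtain ⟨r, hr, hr'⟩ := Pool.Agent.N601.PB.odd_exponent H hfg (fun P => by
    obtain ⟨Q, T, hT, e⟩ := h P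
    exact ⟨Q, T, hT, e⟩)
  have htor : IsAddTorsion A := by
    intro P
    rw [isOfFinAddOrder_iff_nsmul_eq_zero]
    refine ⟨2 * r, Nat.mul_pos two_pos hr.pos, ?_⟩
    have h3 : r • P + r • P = 0 := hr' P
    rw [two_mul, add_nsmul, h3]
  have : AddGroup.FG A := hfg
  exact AddCommGroup.finite_of_fg_isAddTorsion A htor

theorem tate_c {L L' K F : Type} [Field L] [Field L'] [Algebra L L'] [Field K]
    [Algebra L[X] K] [Field F] [Algebra L'[X] F] [IsFractionRing L'[X] F]
    [Algebra K F] (hT : IsTower L L' K F) (h2 : (2 : L) ≠ 0) {A p q : L[X]} {w : L} (hw : w ≠ 0)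
    (hp : Irreducible p) (hq : Irreducible q) (sp : p.Separable) (sq : q.Separable)
    (e : A ^ 2 - 4 * (C w * p) = C w * q) (n1 : NotNorm (C w * p))
    (n2 : NotNorm (A ^ 2 - 4 * (C w * p))) :
    TateAtTwo (F := F) L' (crvT (algebraMap L[X] K A) (algebraMap L[X] K (C w * p))) :=
  genericT hT h2 (u := w) (v := w) (m := 0) (n := 0) (π := p) (ρ := q) hw hw hp hq sp sq
    (by rw [mul_zero, zero_add, pow_one]) (by rw [e, mul_zero, zero_add, pow_one]) n1 n2

theorem holds_ext (h2 : (2 : k) ≠ 0) {a b : k[X]} {N : ℕ} (hN : 5 ≤ N) (hb : FF N b)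
    (hd : FF N (a ^ 2 - 4 * b)) {L L' K F : Type} [Field L] [Field L'] [Algebra L L'] [Field K]
    [Algebra L[X] K] [IsFractionRing L[X] K] [Field F] [Algebra L'[X] F] [IsFractionRing L'[X] F]
    [Algebra K F] [Algebra k L] [Algebra k L'] [IsScalarTower k L L'] (hT : IsTower L L' K F)
    (M : IntermediateField k L') (hMn : Normal k M)
    (hM : ∀ x : L, IsSeparable k x → algebraMap L L' x ∈ M)
    (h1 : ¬ (b.map (algebraMap k M)).Splits)
    (h3 : ¬ ((a ^ 2 - 4 * b).map (algebraMap k M)).Splits) :
    HoldsOver a b L L' K F := by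
  intro c hc
  have hsc : IsSepClosure L L' := hT.sep
  have h2L : (2 : L) ≠ 0 := by
    rw [← map_ofNat (algebraMap k L) 2]
    exact (map_ne_zero_iff _ (algebraMap k L).injective).2 h2
  have hc2 : c ^ 2 ≠ 0 := pow_ne_zero 2 hc
  obtain ⟨g1, g2, -⟩ := cd_ext h2 hN hb hd M hMn hM h1 h3 K c hc (Ec K a b c) rfl
  have g3 : AddGroup.FG (Pt (Ec K a b c) K) → Finite (Pt (Ec K a b c) K) := fun hfg =>
    finite_of_complete (A := Pt (Ec K a b c) K) g1 hfg
  refine ⟨?_, g1, g3, g2⟩
  obtain ⟨i1, n1⟩ := three_gen hb.2.1 (by rw [hb.1.2]; exact hN) hb.2.2 h2 L L' M hM h1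
  obtain ⟨i2, n2⟩ := three_gen hd.2.1 (by rw [hd.1.2]; exact hN) hd.2.2 h2 L L' M hM h3
  have e : (C c * a.map (algebraMap k L)) ^ 2 - 4 * (C (c ^ 2) * b.map (algebraMap k L)) =
      C (c ^ 2) * (a ^ 2 - 4 * b).map (algebraMap k L) := by
    rw [Polynomial.map_sub, Polynomial.map_pow, Polynomial.map_mul, Polynomial.map_ofNat, C_pow]
    ring
  have s1 : (b.map (algebraMap k L)).Separable := hb.2.1.map
  have s2 : ((a ^ 2 - 4 * b).map (algebraMap k L)).Separable := hd.2.1.map
  have q1 : NotNorm (C (c ^ 2) * b.map (algebraMap k L)) := notNorm_C n1 hc2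
  have q2 : NotNorm ((C c * a.map (algebraMap k L)) ^ 2 - 4 * (C (c ^ 2) * b.map (algebraMap k L))) := by
    rw [e]; exact notNorm_C n2 hc2
  exact tate_c hT h2L hc2 i1 i2 s1 s2 e q1 q2

theorem holds_solv (h2 : (2 : k) ≠ 0) {a b : k[X]} {N : ℕ} (hN : 5 ≤ N) (hb : FF N b)
    (hd : FF N (a ^ 2 - 4 * b)) {L L' K F : Type} [Field L] [Field L'] [Algebra L L'] [Field K]
    [Algebra L[X] K] [IsFractionRing L[X] K] [Field F] [Algebra L'[X] F] [IsFractionRing L'[X] F]
    [Algebra K F] [Algebra k L] [Algebra k L'] [IsScalarTower k L L'] (hT : IsTower L L' K F)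
    (hM : ∀ x : L, IsSeparable k x → Group.IsSolvable (minpoly k x).Gal) :
    HoldsOver a b L L' K F := by
  have hsc : IsSepClosure L L' := hT.sep
  have : IsSepClosed L' := IsSepClosure.sep_closed L
  exact holds_ext h2 hN hb hd hT (solvM k L') (solvM_normal L')
    (fun x hx => mem_solvM hx (hM x hx))
    (solvM_not_splits L' hb.2.1 (by rw [hb.1.2]; exact hN) hb.2.2)
    (solvM_not_splits L' hd.2.1 (by rw [hd.1.2]; exact hN) hd.2.2)

end holds

theorem good_of {R k : Type} [CommRing R] [IsDomain R] [IsIntegrallyClosed R] [IsNoetherianRing R]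
    [Field k] [Algebra R k] [IsFractionRing R k] (h2 : (2 : R) ≠ 0)
    {m N B : ℕ} (hmN : 2 * m ≤ N) (hN : 5 ≤ N) {z : Pairs m N R}
    (h : ∀ s : Bool × Fin 3, ∃ p ∈ Pool.Agent.X243.Gen.Zg R B,
      (fun j => Ideal.Quotient.mk p (toV z j)) ∈ Pool.Agent.X243.Sol.Gev3 m N s (R ⧸ p)) :
    Good k N (poly k z.1) (poly k z.2) := by
  have h2k : (2 : k) ≠ 0 := by
    rw [← map_ofNat (algebraMap R k) 2]
    exact (map_ne_zero_iff _ (IsFractionRing.injective R k)).2 h2
  obtain ⟨h1, h3⟩ := Pool.Agent.X243.Gen.goodG (k := k) hmN (by omega : 3 ≤ N) h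
    (poly k z.1) (poly k z.2)
    (Pool.Agent.X243.Tate.bF_map (algebraMap R k) z.1).symm
    (Pool.Agent.X243.Tate.bF_map (algebraMap R k) z.2).symm
  refine ⟨⟨h1.1.1, h1.1.2, h1.2.1⟩, ⟨h3.1.1, h3.1.2, h3.2.1⟩, ?_, ?_⟩
  · intro L L' K F _ _ _ _ _ _ _ _ _ _ _ _ _ hT M hMn hM a1 a2
    exact holds_ext h2k hN h1 h3 hT M hMn hM a1 a2
  · intro L L' K F _ _ _ _ _ _ _ _ _ _ _ _ _ hT hM
    exact holds_solv h2k hN h1 h3 hT hM

theorem result :
    ∀ (R k : Type) [CommRing R] [IsDomain R] [IsIntegrallyClosed R] [Algebra.FiniteType ℤ R]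
      [Field k] [Algebra R k] [IsFractionRing R k], ¬ IsField R → (2 : R) ≠ 0 →
      ∀ m N : ℕ, 2 * m ≤ N → 5 ≤ N →
        (∀ η : ℝ, 0 < η → ∃ M : Ideal R, Finite (R ⧸ M) ∧
          (1 - η) * (Nat.card (Pairs m N (R ⧸ M)) : ℝ) ≤
          (({z : Pairs m N (R ⧸ M) | ∀ y : Pairs m N R, InClass y z →
                Good k N (poly k y.1) (poly k y.2)}.ncard : ℕ) : ℝ)) ∧
        (∀ B : ℕ → Finset (Pairs m N R), (∀ i, (B i).Nonempty) → Equidistributed B →
          Tendsto (fun i => (((B i).filter (fun y =>
              Good k N (poly k y.1) (poly k y.2))).card : ℝ) /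
            ((B i).card : ℝ)) atTop (𝓝 1)) := by
  intro R k _ _ _ _ _ _ _ hR h2 m N hmN hN
  have : IsNoetherianRing R := Algebra.FiniteType.isNoetherianRing ℤ R
  have hcard : ∀ M : Ideal R, (Nat.card (Pairs m N (R ⧸ M)) : ℝ) =
      (Nat.card (R ⧸ M) : ℝ) ^ (Fintype.card (Fin (m + 1) ⊕ Fin (N + 1))) := by
    intro M
    rw [Nat.card_congr (Equiv.ofBijective _ ⟨toV_inj (m := m) (N := N) (R := R ⧸ M), toV_surj⟩),
      Nat.card_fun, Nat.card_eq_fintype_card (α := Fin (m + 1) ⊕ Fin (N + 1))]
    push_cast
    rfl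
  -- the good vectors
  obtain ⟨S, hS⟩ : ∃ S : Set (Fin (m + 1) ⊕ Fin (N + 1) → R),
      S = {x | ∃ z : Pairs m N R, toV z = x ∧ Good k N (poly k z.1) (poly k z.2)} := ⟨_, rfl⟩
  have hSmem : ∀ y : Pairs m N R, toV y ∈ S ↔ Good k N (poly k y.1) (poly k y.2) := by
    intro y
    rw [hS]
    constructor
    · rintro ⟨z, hz, hg⟩
      rwa [toV_inj hz] at hg
    · intro hg
      exact ⟨y, rfl, hg⟩
  have key : ∀ η : ℝ, 0 < η → ∃ M : Ideal R, Finite (R ⧸ M) ∧
      (1 - η) * (Nat.card (R ⧸ M) : ℝ) ^ (Fintype.card (Fin (m + 1) ⊕ Fin (N + 1))) ≤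
        (({x : Fin (m + 1) ⊕ Fin (N + 1) → R ⧸ M | ∀ y : Fin (m + 1) ⊕ Fin (N + 1) → R,
          (∀ j, Ideal.Quotient.mk M (y j) = x j) → y ∈ S}).ncard : ℝ) := by
    intro η hη
    obtain ⟨M, hM, hd⟩ := Pool.Agent.X243.Gen.densOne R hR h2 (m := m) (by omega : 3 ≤ N) η hη
    have := hM
    refine ⟨M, hM, hd.trans ?_⟩
    have h3 : ∀ S T : Set (Fin (m + 1) ⊕ Fin (N + 1) → R ⧸ M), S ⊆ T →
        ((S.ncard : ℕ) : ℝ) ≤ ((T.ncard : ℕ) : ℝ) := fun S T h => by
      exact_mod_cast Set.ncard_le_ncard h (Set.toFinite _)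
    apply h3
    intro x hx y hy
    obtain ⟨z, rfl⟩ := toV_surj y
    rw [hSmem]
    refine good_of h2 (B := 2 * N + 2) hmN hN (fun s => ?_)
    obtain ⟨p, hp, hp'⟩ := hx s
    exact ⟨p, hp, hp' (toV z) hy⟩
  constructor
  · intro η hη
    obtain ⟨M, hM, hd⟩ := key η hη
    have := hM
    refine ⟨M, hM, ?_⟩
    rw [hcard]
    refine hd.trans ?_
    rw [← Set.ncard_image_of_injective _ (toV_inj (R := R ⧸ M) (m := m) (N := N))]
    have h3 : ∀ S T : Set (Fin (m + 1) ⊕ Fin (N + 1) → R ⧸ M), S ⊆ T →
        ((S.ncard : ℕ) : ℝ) ≤ ((T.ncard : ℕ) : ℝ) := fun S T h => by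
      exact_mod_cast Set.ncard_le_ncard h (Set.toFinite _)
    apply h3
    intro x hx
    obtain ⟨z, rfl⟩ := toV_surj x
    refine ⟨z, fun y hy => ?_, rfl⟩
    rw [← hSmem]
    exact hx _ ((inClass_iff y z).1 hy)
  · intro B hB heq
    have hinj : Function.Injective (toV (R := R) (m := m) (N := N)) := toV_inj
    have hc : ∀ (i : ℕ) (P : (Fin (m + 1) ⊕ Fin (N + 1) → R) → Prop) [DecidablePred P]
        (Q : Pairs m N R → Prop) [DecidablePred Q], (∀ y, P (toV y) ↔ Q y) →
        (((B i).map ⟨toV, hinj⟩).filter P).card = ((B i).filter Q).card := by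
      intro i P _ Q _ hPQ
      rw [Finset.filter_map, Finset.card_map]
      congr 1
      ext y
      rw [Finset.mem_filter, Finset.mem_filter]
      exact and_congr_right fun _ => hPQ y
    have hlim := Pool.Agent.X243.Gen.tendsto_of_dens S key (fun i => (B i).map ⟨toV, hinj⟩)
      (fun i => (hB i).map) (by
        intro M hM x
        obtain ⟨z, rfl⟩ := toV_surj x
        have h1 := heq M hM z
        rw [hcard] at h1
        refine h1.congr fun i => ?_
        rw [Finset.card_map, hc i _ (fun y => InClass y z) (fun y => (inClass_iff y z).symm)])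
    refine hlim.congr fun i => ?_
    rw [Finset.card_map, hc i _ (fun y => Good k N (poly k y.1) (poly k y.2)) hSmem]

end Pool.Agent.Results.MP_17a657_ag.OrderTwoSections
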