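import Mathlib
import Pool.Agent.N140.RO.Pb
import Pool.Agent.N140.RO.Cnt2

/-!
# The Tate conjecture at 2 for random pullbacks of all rational elliptic surfaces with a section of order
# two and rational bad fibres, over all number fields at the same time

Let `K` be a number field, `ω` a basis of its ring of integers, `n ≥ 5` odd. The coordinates of the
coefficients of two polynomials `q`, `r` of degree at most `n` over the ring of integers form a vector `c` of
integers. Let `k'` be a finite extension of `K` and let

`E₀ : y² = x (x² + a x + b)`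

be a rational elliptic surface over `k'(s)` with a section of order two: `a`, `b` are polynomials over `k'` of
degrees at most `2` and `4` (every such surface has an equation of this form), neither `b` nor
`d = a² - 4 b` is a constant times a square, and `b d` is a product of linear polynomials over `k'` (`Base`).
Nothing is assumed on the points of `E₀`. Let `E` be the pullback of `E₀` by `s = q(t) / r(t)`, the curve
`y² = x (x² + a' x + b')`, `a' = ∑ a_i q^i r^(2 - i)`, `b' = ∑ b_i q^i r^(4 - i)`, the generic fibre of an
elliptic surface over the projective line, which is simply connected; the geometric genus tends to infinity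
with `n`.

The forms of the bad places (`Form2`) are the polynomials `q - ξ r` for the roots `ξ` of `b d`, and `r` if
not both `b` and `d` have degree 4 and `r` is not `1`. The vector `c` is good for `E₀` over `k'` (`GoodOver`)
if `q`, `r` are coprime, all the forms are irreducible of degree `n`, and for EVERY extension field `L` of `k'`
such that for each element of `L` which is algebraic over `k'` the Galois group of its minimal polynomial
over `k'` is solvable (for example `L = k'`, or more generally if the elements of `L` which are algebraic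
over `k'` lie in a normal extension of `k'` over which none of the forms splits into linear factors) the
Tate conjecture for divisors at the prime 2 holds for the surface over `L` (`TateQ 2`): for the classes
in `V₂ Sel(E / L'(t))` which are fixed by the Galois group there is `N > 0` such that `N` times the class comes
from `E(L(t))`.

Theorem. (1) For every finite extension `k'` of `K` and every base `E₀` over `k'` the set of the integral
vectors `c` which are not good for `E₀` over `k'` is pronull: its closure in the product of the `ℤ_p^r`, `p`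
prime to any given `M`, has Haar measure zero.

(2) (Random pullbacks.) Let `s_0, ..., s_m'` be matrices in `SL_r(ℤ)` which generate `SL_r(ℤ/q)` for all `q`
prime to some number. (By strong approximation these are all the finite families which generate a
Zariski dense group; the group may have infinite index in `SL_r(ℤ)`.) Let `v ≠ 0` be an integral vector. For
independent, uniformly chosen indices `w 0, w 1, ...` let `c_i = s_{w (i-1)} ... s_{w 0} v`. For almost all `w` the
following holds: for ALL finite extensions `k'` of `K` in an algebraic closure and for ALL bases `E₀` over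
`k'` the vector `c_i` is good for `E₀` over `k'` for all `i` outside a set of density zero.

Proof. Local criterion of helper181 (`MP_1bad5e_ag.RationalSurfacePullbacks`), which uses the library of
helper601: Frobenius elements at maximal ideals show that the Galois groups of the forms over `k'` are the
full symmetric groups. For the parameters over `K` we use the primes of `k'` of degree one
(`Pool.Agent.N140.RO.Sv2`), and then the engine of helpers 24, 123, 195, 300, 543 and 765 for random orbits.
-/

set_option autoImplicit false

namespace Pool.Agent.Results.MP_17a657_ag.RandomPullbacks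

open Polynomial NumberField MeasureTheory Filter Topology Pool.Agent.N24.RW Pool.Agent.N140.RO
  Pool.Agent.N140.RO.Pb

/-- The coordinates of the coefficients of the pair `(q, r)`. -/
abbrev Ix (n : ℕ) (J : Type) : Type := (Fin (n + 1) ⊕ Fin (n + 1)) × J

section

variable {K : Type} [Field K] {J : Type} [Fintype J] (ω : Module.Basis J ℤ (𝓞 K)) {n : ℕ}

/-- The polynomial `q` over the ring of integers with the coordinates `c`. -/
noncomputable def polQ (c : Ix n J → ℤ) : K[X] :=
  ∑ j : Fin (n + 1), C (algebraMap (𝓞 K) K (vec ω c (Sum.inl j))) * X ^ (j : ℕ)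

/-- The polynomial `r` over the ring of integers with the coordinates `c`. -/
noncomputable def polR (c : Ix n J → ℤ) : K[X] :=
  ∑ j : Fin (n + 1), C (algebraMap (𝓞 K) K (vec ω c (Sum.inr j))) * X ^ (j : ℕ)

/-- The vector `c` is good for the base given by `(a, b)` over the extension `E` of `K`. -/
def GoodOver (E : Type) [Field E] [Algebra K E] (a b : E[X]) (c : Ix n J → ℤ) : Prop :=
  Good E n a b ((polQ ω c).map (algebraMap K E)) ((polR ω c).map (algebraMap K E))

end

open Pool.Agent.X243.Gen Pool.Agent.N181.P3 in
theorem pro {K : Type} [Field K] {J : Type} [Fintype J] (ω : Module.Basis J ℤ (𝓞 K)) {n : ℕ}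
    (hn : 5 ≤ n) (hodd : ¬ 2 ∣ n) (E : Type) [Field E] [NumberField E] [Algebra K E] {a b : E[X]}
    (hB : Pb.Base a b) : ProNull {c : Ix n J → ℤ | ¬ GoodOver ω E a b c} := by
  classical
  have hD' : (0 : ℝ) < ((Pool.Agent.X243.Sol.DD n * Pool.Agent.X243.Sol.DD n : ℕ) : ℝ) := by
    have h1 : 0 < Pool.Agent.X243.Sol.DD n := by
      have := Pool.Agent.X243.Sol.D3_pos n
      unfold Pool.Agent.X243.Sol.DD
      have h3 : 0 < 4 * n := by omega
      positivity
    exact_mod_cast Nat.mul_pos h1 h1
  obtain ⟨D, μ, ρ, hD, hρ⟩ := exists_roots (R := 𝓞 E) (mul_ne_zero hB.rat.hb0 hB.rat.hd0)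
  refine proNull_of (σ := Option (Idx μ × Fin 3)) (fun s => {c : Ix n J → ℤ |
      ∀ P ∈ Two2.Big E (2 * n + 2) D,
      (fun i => Ideal.Quotient.mk P (algebraMap (𝓞 K) (𝓞 E) (vec ω c i))) ∉
        Lev n (cl D) (cm ρ) none (some none) s P}) _ (fun s => ?_) ?_
  · refine Two2.pro_sieve t_CRIT ω (2 * n + 2) hD
      (fun P => Lev n (cl D) (cm ρ) none (some none) s P)
      (δ := 1 / ((Pool.Agent.X243.Sol.DD n * Pool.Agent.X243.Sol.DD n : ℕ) : ℝ)) (by positivity)
      (fun P hP => ?_)
    have h1 := Lev_card' (by omega : 3 ≤ n) (cl D) (cm ρ) none (some none) s hP.1.1 hP.1.2.1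
      hP.1.2.2.1 (cl_ne ρ hP.1.1 hP.2) (cl_det D ρ hP.1.1)
    have hc : Fintype.card (Fin (n + 1) ⊕ Fin (n + 1)) = 2 * n + 2 := by
      rw [Fintype.card_sum, Fintype.card_fin]
      omega
    rw [hc, one_div, inv_mul_le_iff₀ hD']
    exact_mod_cast h1
  · intro c hc
    by_contra hno
    apply hc
    simp only [Set.mem_ofPred_eq, not_exists, not_forall, not_not] at hno
    set z : Pairs n (𝓞 E) := (fun j => algebraMap (𝓞 K) (𝓞 E) (vec ω c (Sum.inl j)),
      fun j => algebraMap (𝓞 K) (𝓞 E) (vec ω c (Sum.inr j))) with hz
    have hzv : toV z = fun i => algebraMap (𝓞 K) (𝓞 E) (vec ω c i) := by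
      funext i
      rcases i with j | j <;> rfl
    have key := good_pair (R := 𝓞 E) (k := E) hB hn hodd hD hρ (z := z) (fun s => by
        obtain ⟨P, hP, h⟩ := hno s
        refine ⟨P, ⟨hP.1.1, hP.1.2.1, hP.1.2.2.1, hP.2⟩, ?_⟩
        rw [hzv]
        exact h)
    have e1 : poly E z.1 = (polQ ω c).map (algebraMap K E) := by
      rw [poly, polQ, Polynomial.map_sum]
      refine Finset.sum_congr rfl fun j _ => ?_
      rw [Polynomial.map_mul, Polynomial.map_pow, map_C, map_X, hz,
        ← IsScalarTower.algebraMap_apply, ← IsScalarTower.algebraMap_apply]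
    have e2 : poly E z.2 = (polR ω c).map (algebraMap K E) := by
      rw [poly, polR, Polynomial.map_sum]
      refine Finset.sum_congr rfl fun j _ => ?_
      rw [Polynomial.map_mul, Polynomial.map_pow, map_C, map_X, hz,
        ← IsScalarTower.algebraMap_apply, ← IsScalarTower.algebraMap_apply]
    rw [e1, e2] at key
    exact key

theorem countable_poly (E : Type) [Field E] (h : Countable E) : Countable (E[X] × E[X]) := by
  have h1 : Countable E[X] := by
    rw [← Cardinal.mk_le_aleph0_iff]
    refine Polynomial.cardinalMk_le_max.trans ?_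
    rw [max_le_iff]
    exact ⟨Cardinal.mk_le_aleph0_iff.2 h, le_rfl⟩
  infer_instance

theorem result {K : Type} [Field K] [NumberField K] {J : Type} [Fintype J] [DecidableEq J]
    (ω : Module.Basis J ℤ (𝓞 K)) {n : ℕ} (hn : 5 ≤ n) (hodd : ¬ 2 ∣ n) :
    (∀ (E : Type) [Field E] [NumberField E] [Algebra K E] (a b : E[X]), Pb.Base a b →
      ProNull {c : Ix n J → ℤ | ¬ GoodOver ω E a b c}) ∧
    ∀ (W : Walk (Ix n J)) (v : Ix n J → ℤ), v ≠ 0 → ∀ᵐ w ∂(words W.m),
      ∀ E : IntermediateField K (AlgebraicClosure K), FiniteDimensional K E →
        ∀ a b : Polynomial E, Pb.Base a b → Tendsto (fun n' : ℕ =>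
          (({i : ℕ | i < n' ∧ ¬ GoodOver ω E a b (orb W v w i)}.ncard : ℕ) : ℝ) / (n' : ℝ))
            atTop (𝓝 0) := by
  have h1 : ∀ (E : Type) [Field E] [NumberField E] [Algebra K E] (a b : E[X]), Pb.Base a b →
      ProNull {c : Ix n J → ℤ | ¬ GoodOver ω E a b c} := fun E _ _ _ a b hB =>
    pro ω hn hodd E hB
  have h2 : 2 ≤ Fintype.card (Ix n J) := by
    have hJ : 0 < Fintype.card J := by
      have : Nonempty J := ω.index_nonempty
      exact Fintype.card_pos
    rw [Fintype.card_prod, Fintype.card_sum, Fintype.card_fin]
    calc 2 ≤ (n + 1 + (n + 1)) * 1 := by omega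
      _ ≤ (n + 1 + (n + 1)) * Fintype.card J := Nat.mul_le_mul_left _ hJ
  refine ⟨h1, fun W v hv => ?_⟩
  have h3 := ae_all_t h2 (fun E [Field E] => E[X] × E[X])
    (fun E [Field E] hE => countable_poly E hE)
    (fun E [Field E] [Algebra K E] t c => Pb.Base t.1 t.2 → GoodOver ω E t.1 t.2 c)
    (fun E [Field E] [NumberField E] [Algebra K E] t => by
      by_cases hB : Pb.Base t.1 t.2
      · refine Clo.mono ?_ (h1 E t.1 t.2 hB)
        intro c hc hg
        exact hc fun _ => hg
      · refine Clo.mono ?_ proNull_empty
        intro c hc
        exact hc fun h => absurd h hB) W v hv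
  filter_upwards [h3] with w hw E hE a b hB
  have h4 := hw E hE (a, b)
  refine h4.congr fun n' => ?_
  congr 3
  ext i
  simp only [Set.mem_ofPred_eq]
  constructor
  · rintro ⟨h5, h6⟩
    exact ⟨h5, fun h7 => h6 fun _ => h7⟩
  · rintro ⟨h5, h6⟩
    exact ⟨h5, fun h7 => h6 (h7 hB)⟩

end Pool.Agent.Results.MP_17a657_ag.RandomPullbacks
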